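import Pool.Agent.H472R3.Defs
import Pool.Agent.H472R3.Limit

/-!
# A sequence of points of Outer space whose length functions are eventually constant
-/

set_option autoImplicit false

open Filter

namespace Pool.Agent.Y136.PinDown

open Pool.Agent.H472R3

/-- the levels differ from later levels -/
lemma later_ne (M n : ℕ) : ∀ᶠ m in atTop, n < m ∧ (treeN M n).len ≠ (treeN M m).len := by
  obtain ⟨g, hg⟩ := Function.ne_iff.mp (len_ne (M := M) n)
  obtain ⟨k, hk⟩ := len_level (M := M) {g}
  filter_upwards [eventually_ge_atTop k, eventually_gt_atTop n] with m h1 h2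
  refine ⟨h2, fun h => hg ?_⟩
  rw [h]
  exact hk m h1 g (by simp)

theorem main_seq (N : ℕ) (hN : 3 ≤ N) : ∃ A : FTree N, A.InClosure ∧ A.Free ∧
    ∃ T : ℕ → FTree N, (∀ n, (T n).InCV) ∧ (∀ n, (T n).len ≠ A.len) ∧
      (∀ m n, m ≠ n → (T m).len ≠ (T n).len) ∧
      (∀ g, ∀ᶠ n in atTop, (T n).len g = A.len g) ∧
      (∀ S : Set (FreeGroup (Fin N)), S.Finite →
        (∀ᶠ n in atTop, ∀ g ∈ S, (T n).len g = A.len g) ∧ ¬ FTree.PinsDown S A) ∧
      ∀ S : Set (FreeGroup (Fin N)), FTree.PinsDown S A →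
        ∀ n, ∃ g ∈ S, (T n).len g ≠ A.len g := by
  obtain ⟨M, rfl⟩ : ∃ M, N = M + 3 := ⟨N - 3, by omega⟩
  obtain ⟨f, -, hf⟩ := exists_seq_of_forall_finset_exists (fun _ : ℕ => True)
    (fun n m => n < m ∧ (treeN M n).len ≠ (treeN M m).len) (by
      intro s _
      obtain ⟨m, hm⟩ := ((eventually_all_finset s).mpr fun n _ => later_ne M n).exists
      exact ⟨m, trivial, hm⟩)
  have hmono : StrictMono f := fun m n h => (hf m n h).1
  have hpin : ∀ S : Set (FreeGroup (Fin (M + 3))), FTree.PinsDown S (treeInf M) →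
      ∀ n, ∃ g ∈ S, (treeN M (f n)).len g ≠ (treeInf M).len g := by
    intro S hS n
    by_contra hcon
    push Not at hcon
    have h1 := hS (treeN M (f n)) (InCV.inClosure (by omega) (treeN_inCV (f n))) hcon
    exact len_ne (f n) h1.len_eq
  have hev : ∀ S : Set (FreeGroup (Fin (M + 3))), S.Finite →
      ∀ᶠ n in atTop, ∀ g ∈ S, (treeN M (f n)).len g = (treeInf M).len g := by
    intro S hS
    obtain ⟨k, hk⟩ := len_level (M := M) hS.toFinset
    filter_upwards [eventually_ge_atTop k] with n hn g hg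
    exact hk (f n) (hn.trans hmono.le_apply) g (by simpa using hg)
  refine ⟨treeInf M, treeInf_inClosure, treeInf_free, fun n => treeN M (f n),
    fun n => treeN_inCV (f n), fun n => len_ne (f n), ?_, ?_, fun S hS => ⟨hev S hS, ?_⟩, hpin⟩
  · intro m n h
    rcases lt_or_gt_of_ne h with h1 | h1
    · exact (hf m n h1).2
    · exact (hf n m h1).2.symm
  · intro g
    filter_upwards [hev {g} (Set.finite_singleton g)] with n hn
    exact hn g rfl
  · intro h
    obtain ⟨n, hn⟩ := (hev S hS).exists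
    obtain ⟨g, hg, hne⟩ := hpin S h n
    exact hne (hn g hg)

end Pool.Agent.Y136.PinDown
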